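import Pool.Agent.helper82.CH.SpecA
import Pool.Agent.helper30.TK.KE3

/-!
# Project CH, row CSM: summability
-/

set_option autoImplicit false

open NumberField Complex Pool.Agent.UN

namespace Pool.Agent.CH

theorem CSM_le (f g : ℕ → ℂ) (s : ℂ) (h : ∀ n : ℕ, n ≠ 0 → ‖f n‖ ≤ ‖g n‖)
    (hg : LSeriesSummable g s) : LSeriesSummable f s := by
  refine Summable.of_norm_bounded hg.norm (fun n => ?_)
  rcases eq_or_ne n 0 with hn | hn
  · subst hn
    simp [LSeries.term_zero]
  · exact LSeries.norm_term_le s (h n hn)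

theorem CSM_nd (F : Type) [Field F] [NumberField F] (s : ℂ) (hs : 1 < s.re) :
    LSeriesSummable (fun n => (nd F n : ℂ)) s := by
  have h := (Pool.Agent.TK.KE3 F).1 s.re hs
  refine Summable.of_norm_bounded h (fun n => ?_)
  rw [LSeries.norm_term_eq]
  split_ifs with hn
  · positivity
  · rw [Real.rpow_neg (Nat.cast_nonneg n), ← div_eq_mul_inv, Complex.norm_natCast]
    exact le_rfl

theorem CSM (hZBD : ZBD_stmt) : CSM_stmt := by
  intro F _ _ χ hχ s hs
  obtain ⟨hz, hc, _⟩ := hZBD F χ hχ
  have h1 : LSeriesSummable (cc χ) s := by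
    refine CSM_le _ _ s (fun n hn => ?_) (CSM_nd F s hs)
    rw [Complex.norm_natCast]
    exact hc n hn
  have h2 : LSeriesSummable (zz χ) s := by
    have hg : LSeriesSummable ((Module.finrank ℚ F : ℂ) •
        (fun n : ℕ => (ArithmeticFunction.vonMangoldt n : ℂ))) s :=
      (ArithmeticFunction.LSeriesSummable_vonMangoldt hs).smul _
    refine CSM_le _ _ s (fun n _ => ?_) hg
    have h3 : ‖((Module.finrank ℚ F : ℂ) •
        (fun n : ℕ => (ArithmeticFunction.vonMangoldt n : ℂ))) n‖ =
        Module.finrank ℚ F * ArithmeticFunction.vonMangoldt n := by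
      rw [Pi.smul_apply, smul_eq_mul, norm_mul, Complex.norm_natCast, Complex.norm_real,
        Real.norm_of_nonneg ArithmeticFunction.vonMangoldt_nonneg]
    rw [h3]
    exact hz n
  refine ⟨h1, h2, ?_⟩
  have hg : LSeriesSummable ((((Real.log 2)⁻¹ : ℝ) : ℂ) • (zz χ)) s := h2.smul _
  refine CSM_le _ _ s (fun n hn => ?_) hg
  have hl2 : 0 < Real.log 2 := Real.log_pos one_lt_two
  rw [Pi.smul_apply, smul_eq_mul, norm_mul, Complex.norm_real,
    Real.norm_of_nonneg (inv_nonneg.mpr hl2.le)]
  unfold lg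
  rw [norm_div, Complex.norm_real]
  rcases Nat.lt_or_ge n 2 with h4 | h4
  · have h5 : n = 1 := by omega
    subst h5
    simp only [Nat.cast_one, Real.log_one, norm_zero, div_zero]
    positivity
  · have h6 : Real.log 2 ≤ Real.log n :=
      Real.log_le_log two_pos (by exact_mod_cast h4)
    rw [Real.norm_of_nonneg (hl2.le.trans h6), div_eq_inv_mul]
    exact mul_le_mul_of_nonneg_right (inv_anti₀ hl2 h6) (norm_nonneg _)

end Pool.Agent.CH
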