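import Pool.Agent.helper82.CH.SpecE

/-!
# Project CH, row LIN: the theorem of Linnik for a system of L-functions
-/

set_option autoImplicit false

open Complex

namespace Pool.Agent.CHE

/-! ## The weight -/

theorem LIN_rpow (δ : ℝ) (k : ℕ) (hk : 1 ≤ k) :
    (k : ℝ) ^ (-(1 + δ)) = Real.exp (-(δ * Real.log k)) / k := by
  have hk0 : (0 : ℝ) < k := by exact_mod_cast hk
  rw [Real.rpow_def_of_pos hk0]
  have h : Real.log k * -(1 + δ) = -(δ * Real.log k) - Real.log k := by ring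
  rw [h, Real.exp_sub, Real.exp_log hk0]

theorem LIN_w (δ β : ℝ) (j k : ℕ) (hδ : 0 < δ) (hδ1 : δ ≤ 1) (hβ : 0 ≤ β) (hk : 1 ≤ k) :
    δ ^ (j + 1) * (β * (Real.log k ^ j / (j.factorial : ℝ)) * (k : ℝ) ^ (-(1 + δ))) ≤ β / k := by
  have hk0 : (0 : ℝ) < k := by exact_mod_cast hk
  have hlog : 0 ≤ Real.log k := Real.log_nonneg (by exact_mod_cast hk)
  obtain ⟨v, hv⟩ : ∃ v, v = δ * Real.log k := ⟨_, rfl⟩
  have hv0 : 0 ≤ v := by rw [hv]; positivity
  have h1 : v ^ j / (j.factorial : ℝ) ≤ Real.exp v := Real.pow_div_factorial_le_exp v hv0 j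
  have h3 : δ ^ (j + 1) * (β * (Real.log k ^ j / (j.factorial : ℝ)) * (k : ℝ) ^ (-(1 + δ))) =
      δ * (v ^ j / (j.factorial : ℝ) * Real.exp (-v)) * (β / k) := by
    rw [LIN_rpow δ k hk, hv, mul_pow, pow_succ]
    ring
  rw [h3]
  have h4 : v ^ j / (j.factorial : ℝ) * Real.exp (-v) ≤ 1 := by
    calc v ^ j / (j.factorial : ℝ) * Real.exp (-v) ≤ Real.exp v * Real.exp (-v) :=
          mul_le_mul_of_nonneg_right h1 (Real.exp_pos _).le
      _ = 1 := by rw [← Real.exp_add, add_neg_cancel, Real.exp_zero]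
  have h7 : 0 ≤ v ^ j / (j.factorial : ℝ) * Real.exp (-v) := by positivity
  have h5 : δ * (v ^ j / (j.factorial : ℝ) * Real.exp (-v)) ≤ 1 := by
    calc δ * (v ^ j / (j.factorial : ℝ) * Real.exp (-v)) ≤ 1 * 1 :=
          mul_le_mul hδ1 h4 h7 zero_le_one
      _ = 1 := one_mul 1
  have h6 : 0 ≤ β / k := by positivity
  calc δ * (v ^ j / (j.factorial : ℝ) * Real.exp (-v)) * (β / k) ≤ 1 * (β / k) :=
        mul_le_mul_of_nonneg_right h5 h6
    _ = β / k := one_mul _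

theorem LIN_vm (δ : ℝ) (hδ : 0 < δ) : Summable (fun k : ℕ => VM k * (k : ℝ) ^ (-(1 + δ))) := by
  have h : LSeriesSummable (fun n : ℕ => (ArithmeticFunction.vonMangoldt n : ℂ)) ((1 + δ : ℝ) : ℂ) :=
    ArithmeticFunction.LSeriesSummable_vonMangoldt (by simp [hδ])
  refine h.norm.congr (fun k => ?_)
  rw [LSeries.norm_term_eq]
  rcases eq_or_ne k 0 with hk | hk
  · subst hk
    simp [VM]
  · rw [if_neg hk, Complex.norm_real, Real.norm_of_nonneg ArithmeticFunction.vonMangoldt_nonneg,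
      Complex.ofReal_re, Real.rpow_neg (Nat.cast_nonneg k), ← div_eq_mul_inv]
    rfl

theorem LIN_summable (δ C : ℝ) (j : ℕ) (c : ℕ → ℝ) (hδ : 0 < δ) (hc0 : ∀ k, 0 ≤ c k)
    (hc : ∀ k, c k ≤ C * VM k) :
    Summable (fun k : ℕ => δ ^ (j + 1) * (c k * (Real.log k ^ j / (j.factorial : ℝ)) *
      (k : ℝ) ^ (-(1 + δ)))) := by
  have h := (LIN_vm (δ / 2) (by positivity)).mul_left (δ ^ (j + 1) * (C * (2 / δ) ^ j))
  refine Summable.of_nonneg_of_le (fun k => ?_) (fun k => ?_) h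
  · have : 0 ≤ Real.log k := Real.log_natCast_nonneg k
    have := hc0 k
    positivity
  · rcases Nat.eq_zero_or_pos k with hk | hk
    · subst hk
      have h0 : VM 0 = 0 := by simp [VM]
      have h1 : c 0 = 0 := le_antisymm (by have := hc 0; rw [h0] at this; linarith) (hc0 0)
      rw [h0, h1]
      simp
    · have hk0 : (0 : ℝ) < k := by exact_mod_cast hk
      have hlog : 0 ≤ Real.log k := Real.log_natCast_nonneg k
      have h1 : (δ / 2 * Real.log k) ^ j / (j.factorial : ℝ) ≤ Real.exp (δ / 2 * Real.log k) :=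
        Real.pow_div_factorial_le_exp _ (by positivity) j
      have h2 : Real.log k ^ j / (j.factorial : ℝ) ≤ (2 / δ) ^ j * Real.exp (δ / 2 * Real.log k) := by
        have h3 : Real.log k ^ j / (j.factorial : ℝ) =
            (2 / δ) ^ j * ((δ / 2 * Real.log k) ^ j / (j.factorial : ℝ)) := by
          rw [mul_div_assoc', ← mul_pow]
          have : 2 / δ * (δ / 2 * Real.log k) = Real.log k := by field_simp
          rw [this]
        rw [h3]
        exact mul_le_mul_of_nonneg_left h1 (by positivity)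
      have h4 : (k : ℝ) ^ (-(1 + δ)) * Real.exp (δ / 2 * Real.log k) = (k : ℝ) ^ (-(1 + δ / 2)) := by
        rw [LIN_rpow _ k hk, LIN_rpow _ k hk, div_mul_eq_mul_div, ← Real.exp_add]
        have : -(δ * Real.log k) + δ / 2 * Real.log k = -(δ / 2 * Real.log k) := by ring
        rw [this]
      have h5 : 0 ≤ (k : ℝ) ^ (-(1 + δ)) := by positivity
      have hcv : 0 ≤ C * VM k := (hc0 k).trans (hc k)
      calc δ ^ (j + 1) * (c k * (Real.log k ^ j / (j.factorial : ℝ)) * (k : ℝ) ^ (-(1 + δ)))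
          ≤ δ ^ (j + 1) * ((C * VM k) * ((2 / δ) ^ j * Real.exp (δ / 2 * Real.log k)) *
              (k : ℝ) ^ (-(1 + δ))) := by
            refine mul_le_mul_of_nonneg_left (mul_le_mul_of_nonneg_right ?_ h5) (by positivity)
            exact mul_le_mul (hc k) h2 (by positivity) hcv
        _ = δ ^ (j + 1) * (C * (2 / δ) ^ j) * (VM k * ((k : ℝ) ^ (-(1 + δ)) *
              Real.exp (δ / 2 * Real.log k))) := by ring
        _ = _ := by rw [h4]

/-! ## The numbers in the range -/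

/-- the numbers in the range -/
noncomputable def LIN_S (x X : ℝ) : Finset ℕ :=
  (Finset.range (⌊Real.exp X⌋₊ + 1)).filter (fun k : ℕ => x ≤ Real.log k ∧ Real.log k ≤ X)

theorem LIN_mem (x X : ℝ) (k : ℕ) (hk : 1 ≤ k) :
    k ∈ LIN_S x X ↔ x ≤ Real.log k ∧ Real.log k ≤ X := by
  unfold LIN_S
  rw [Finset.mem_filter, Finset.mem_range]
  refine ⟨fun h => h.2, fun h => ⟨?_, h⟩⟩
  have hk0 : (0 : ℝ) < k := by exact_mod_cast hk
  have h1 : (k : ℝ) ≤ Real.exp X := (Real.log_le_iff_le_exp hk0).mp h.2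
  exact Nat.lt_succ_of_le (Nat.le_floor h1)

theorem LIN_split (C K₂ δ A l : ℝ) (j : ℕ) (c : ℕ → ℝ) (hδ : 0 < δ) (hδ1 : δ ≤ 1) (hC : 0 ≤ C)
    (hA : 0 < A) (hl : 0 < l) (hd : δ = ((j + 1 : ℕ) : ℝ) / (A * l)) (hc0 : ∀ k, 0 ≤ c k)
    (hc : ∀ k, c k ≤ C * VM k)
    (hT : ∑' k : ℕ, (if ((j + 1 : ℕ) : ℝ) / 60 ≤ δ * Real.log k ∧
      δ * Real.log k ≤ 100 * ((j + 1 : ℕ) : ℝ) then 0 else
      δ ^ (j + 1) * (VM k * (Real.log k ^ j / (j.factorial : ℝ)) * (k : ℝ) ^ (-(1 + δ)))) ≤ K₂ * 11⁻¹ ^ j) :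
    ∑' k : ℕ, δ ^ (j + 1) * (c k * (Real.log k ^ j / (j.factorial : ℝ)) * (k : ℝ) ^ (-(1 + δ))) ≤
      ∑ k ∈ LIN_S (A * l / 60) (100 * (A * l)), c k / k + C * (K₂ * 11⁻¹ ^ j) := by
  classical
  have hJ : (0 : ℝ) < ((j + 1 : ℕ) : ℝ) := by positivity
  have hV0 : ∀ k : ℕ, 0 ≤ VM k := fun k => ArithmeticFunction.vonMangoldt_nonneg
  have hsf := LIN_summable δ C j c hδ hc0 hc
  have hsv := LIN_summable δ 1 j VM hδ hV0 (fun k => by rw [one_mul])
  obtain ⟨h, hh⟩ : ∃ h : ℕ → ℝ, h = fun k : ℕ => (if ((j + 1 : ℕ) : ℝ) / 60 ≤ δ * Real.log k ∧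
      δ * Real.log k ≤ 100 * ((j + 1 : ℕ) : ℝ) then 0 else
      δ ^ (j + 1) * (VM k * (Real.log k ^ j / (j.factorial : ℝ)) * (k : ℝ) ^ (-(1 + δ)))) := ⟨_, rfl⟩
  have hpos : ∀ k : ℕ, 0 ≤ δ ^ (j + 1) * (VM k * (Real.log k ^ j / (j.factorial : ℝ)) *
      (k : ℝ) ^ (-(1 + δ))) := by
    intro k
    have : 0 ≤ Real.log k := Real.log_natCast_nonneg k
    have := hV0 k
    positivity
  have hsh : Summable h := by
    refine Summable.of_nonneg_of_le (fun k => ?_) (fun k => ?_) hsv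
    · rw [hh]; simp only
      split_ifs
      · exact le_rfl
      · exact hpos k
    · rw [hh]; simp only
      split_ifs
      · exact hpos k
      · exact le_rfl
  obtain ⟨g, hg⟩ : ∃ g : ℕ → ℝ, g = fun k : ℕ =>
      (if k ∈ LIN_S (A * l / 60) (100 * (A * l)) then c k / k else 0) := ⟨_, rfl⟩
  have hsg : Summable g := by
    refine summable_of_ne_finset_zero (s := LIN_S (A * l / 60) (100 * (A * l))) (fun k hk => ?_)
    rw [hg]; simp only
    rw [if_neg hk]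
  have hgs : ∑' k, g k = ∑ k ∈ LIN_S (A * l / 60) (100 * (A * l)), c k / k := by
    rw [tsum_eq_sum (s := LIN_S (A * l / 60) (100 * (A * l))) (fun k hk => by
      rw [hg]; simp only; rw [if_neg hk])]
    refine Finset.sum_congr rfl (fun k hk => ?_)
    rw [hg]; simp only
    rw [if_pos hk]
  have hle : ∀ k : ℕ, δ ^ (j + 1) * (c k * (Real.log k ^ j / (j.factorial : ℝ)) *
      (k : ℝ) ^ (-(1 + δ))) ≤ g k + C * h k := by
    intro k
    have hg0 : 0 ≤ g k := by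
      rw [hg]; simp only
      split_ifs
      · exact div_nonneg (hc0 k) (Nat.cast_nonneg k)
      · exact le_rfl
    by_cases hr : ((j + 1 : ℕ) : ℝ) / 60 ≤ δ * Real.log k ∧ δ * Real.log k ≤ 100 * ((j + 1 : ℕ) : ℝ)
    · have hk : 1 ≤ k := by
        rcases Nat.eq_zero_or_pos k with hk | hk
        · exfalso
          subst hk
          have := hr.1
          simp only [CharP.cast_eq_zero, Real.log_zero, mul_zero] at this
          linarith [div_pos hJ (by norm_num : (0 : ℝ) < 60)]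
        · exact hk
      have hAl : 0 < A * l := by positivity
      have hmem : k ∈ LIN_S (A * l / 60) (100 * (A * l)) := by
        rw [LIN_mem _ _ k hk]
        obtain ⟨r1, r2⟩ := hr
        rw [hd, div_mul_eq_mul_div, div_le_div_iff₀ (by norm_num) hAl] at r1
        rw [hd, div_mul_eq_mul_div, div_le_iff₀ hAl] at r2
        constructor
        · have : ((j + 1 : ℕ) : ℝ) * (A * l) ≤ ((j + 1 : ℕ) : ℝ) * (Real.log k * 60) := by
            linarith
          have := le_of_mul_le_mul_left this hJ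
          linarith
        · have : ((j + 1 : ℕ) : ℝ) * Real.log k ≤ ((j + 1 : ℕ) : ℝ) * (100 * (A * l)) := by
            linarith
          exact le_of_mul_le_mul_left this hJ
      have hgk : g k = c k / k := by rw [hg]; simp only; rw [if_pos hmem]
      have hhk : h k = 0 := by rw [hh]; simp only; rw [if_pos hr]
      rw [hgk, hhk, mul_zero, add_zero]
      exact LIN_w δ (c k) j k hδ hδ1 (hc0 k) hk
    · have hhk : h k = δ ^ (j + 1) * (VM k * (Real.log k ^ j / (j.factorial : ℝ)) *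
          (k : ℝ) ^ (-(1 + δ))) := by rw [hh]; simp only; rw [if_neg hr]
      have h1 : δ ^ (j + 1) * (c k * (Real.log k ^ j / (j.factorial : ℝ)) * (k : ℝ) ^ (-(1 + δ))) ≤
          C * h k := by
        rw [hhk]
        have h2 : 0 ≤ Real.log k := Real.log_natCast_nonneg k
        have h3 : C * (δ ^ (j + 1) * (VM k * (Real.log k ^ j / (j.factorial : ℝ)) *
          (k : ℝ) ^ (-(1 + δ)))) = δ ^ (j + 1) * ((C * VM k) *
            (Real.log k ^ j / (j.factorial : ℝ)) * (k : ℝ) ^ (-(1 + δ))) := by ring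
        rw [h3]
        have h5 : 0 ≤ (k : ℝ) ^ (-(1 + δ)) := by positivity
        refine mul_le_mul_of_nonneg_left (mul_le_mul_of_nonneg_right ?_ h5) (by positivity)
        exact mul_le_mul_of_nonneg_right (hc k) (by positivity)
      linarith
  calc ∑' k : ℕ, δ ^ (j + 1) * (c k * (Real.log k ^ j / (j.factorial : ℝ)) * (k : ℝ) ^ (-(1 + δ)))
      ≤ ∑' k : ℕ, (g k + C * h k) := hsf.tsum_le_tsum hle (hsg.add (hsh.mul_left C))
    _ = ∑' k, g k + C * ∑' k, h k := by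
        rw [hsg.tsum_add (hsh.mul_left C), tsum_mul_left]
    _ ≤ ∑ k ∈ LIN_S (A * l / 60) (100 * (A * l)), c k / k + C * (K₂ * 11⁻¹ ^ j) := by
        rw [hgs]
        refine add_le_add le_rfl (mul_le_mul_of_nonneg_left ?_ hC)
        rw [hh]
        exact hT

theorem LIN_prime (C K₃ x X : ℝ) (c : ℕ → ℝ) (hC : 0 ≤ C) (hx : 0 < x) (hxX : x ≤ X)
    (hc : ∀ k, c k ≤ C * VM k)
    (hN : ∀ (x : ℝ) (S : Finset ℕ), 1 ≤ x → (∀ k ∈ S, ¬ k.Prime ∧ x ≤ (k : ℝ)) →
      ∑ k ∈ S, VM k / k ≤ K₃ * x ^ (-(1 / 3) : ℝ)) :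
    ∑ k ∈ LIN_S x X, c k / k ≤ C * (K₃ * Real.exp (-(x / 3))) +
      ({p : ℕ | p.Prime ∧ (p : ℝ) ≤ Real.exp X ∧ c p ≠ 0}.ncard : ℝ) * (C * X * Real.exp (-x)) := by
  classical
  have hS : ∀ k ∈ LIN_S x X, 1 ≤ k ∧ Real.exp x ≤ (k : ℝ) ∧ (k : ℝ) ≤ Real.exp X ∧
      Real.log k ≤ X := by
    intro k hk
    have h2 : x ≤ Real.log k ∧ Real.log k ≤ X := by
      unfold LIN_S at hk
      exact (Finset.mem_filter.mp hk).2
    have h1 : 1 ≤ k := by
      rcases Nat.eq_zero_or_pos k with h | h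
      · exfalso
        subst h
        have := h2.1
        simp only [CharP.cast_eq_zero, Real.log_zero] at this
        linarith
      · exact h
    have hk0 : (0 : ℝ) < k := by exact_mod_cast h1
    exact ⟨h1, (Real.le_log_iff_exp_le hk0).mp h2.1, (Real.log_le_iff_le_exp hk0).mp h2.2, h2.2⟩
  rw [← Finset.sum_filter_add_sum_filter_not (LIN_S x X) (fun k => ¬ k.Prime)]
  refine add_le_add ?_ ?_
  · have h1 : ∑ k ∈ (LIN_S x X).filter (fun k => ¬ k.Prime), c k / k ≤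
        C * ∑ k ∈ (LIN_S x X).filter (fun k => ¬ k.Prime), VM k / k := by
      rw [Finset.mul_sum]
      refine Finset.sum_le_sum (fun k _ => ?_)
      rw [← mul_div_assoc]
      exact div_le_div_of_nonneg_right (hc k) (Nat.cast_nonneg k)
    have h2 := hN (Real.exp x) ((LIN_S x X).filter (fun k => ¬ k.Prime))
      (Real.one_le_exp hx.le) (fun k hk => by
        rw [Finset.mem_filter] at hk
        exact ⟨hk.2, (hS k hk.1).2.1⟩)
    have h3 : Real.exp x ^ (-(1 / 3) : ℝ) = Real.exp (-(x / 3)) := by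
      rw [← Real.exp_mul]
      congr 1
      ring
    rw [h3] at h2
    exact h1.trans (mul_le_mul_of_nonneg_left h2 hC)
  · have hfin : {p : ℕ | p.Prime ∧ (p : ℝ) ≤ Real.exp X ∧ c p ≠ 0}.Finite := by
      refine (Set.finite_Iic ⌊Real.exp X⌋₊).subset (fun p hp => ?_)
      exact Nat.le_floor hp.2.1
    have h1 : ∀ k ∈ (LIN_S x X).filter (fun k => ¬ ¬ k.Prime), k ∉
        ((LIN_S x X).filter (fun k => ¬ ¬ k.Prime)).filter (fun k => c k ≠ 0) → c k / k = 0 := by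
      intro k hk hk2
      rw [Finset.mem_filter, not_and, not_not] at hk2
      rw [hk2 hk, zero_div]
    rw [← Finset.sum_subset (Finset.filter_subset _ _) h1]
    have h2 : ∀ k ∈ ((LIN_S x X).filter (fun k => ¬ ¬ k.Prime)).filter (fun k => c k ≠ 0),
        c k / k ≤ C * X * Real.exp (-x) := by
      intro k hk
      rw [Finset.mem_filter, Finset.mem_filter, not_not] at hk
      obtain ⟨⟨hk1, hk2⟩, hk3⟩ := hk
      obtain ⟨s1, s2, s3, s4⟩ := hS k hk1
      have hk0 : (0 : ℝ) < k := by exact_mod_cast s1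
      have hlog : 0 ≤ Real.log k := Real.log_natCast_nonneg k
      have h4 : c k ≤ C * X := by
        refine (hc k).trans (mul_le_mul_of_nonneg_left ?_ hC)
        exact (ArithmeticFunction.vonMangoldt_le_log).trans s4
      rw [Real.exp_neg, ← div_eq_mul_inv]
      exact div_le_div₀ (mul_nonneg hC (by linarith)) h4 (Real.exp_pos x) s2
    have h3 := Finset.sum_le_card_nsmul _ _ _ h2
    rw [nsmul_eq_mul] at h3
    refine h3.trans (mul_le_mul_of_nonneg_right ?_ (by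
      have : 0 ≤ X := by linarith
      positivity))
    have h6 : (((LIN_S x X).filter (fun k => ¬ ¬ k.Prime)).filter (fun k => c k ≠ 0)).card ≤
        {p : ℕ | p.Prime ∧ (p : ℝ) ≤ Real.exp X ∧ c p ≠ 0}.ncard := by
      rw [← Set.ncard_coe_finset]
      refine Set.ncard_le_ncard (fun k hk => ?_) hfin
      rw [Finset.mem_coe, Finset.mem_filter, Finset.mem_filter, not_not] at hk
      exact ⟨hk.1.2, (hS k hk.1.1).2.2.1, hk.2⟩
    exact_mod_cast h6

/-! ## The zeros -/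

theorem LIN_norm {Y : Type} [CommGroup Y] [Fintype Y] (χ : Y →* ℂˣ) (y : Y) :
    ‖((χ y : ℂˣ) : ℂ)‖ = 1 := by
  refine Complex.norm_eq_one_of_pow_eq_one (n := Fintype.card Y) ?_ Fintype.card_ne_zero
  rw [← Units.val_pow_eq_pow_val, ← map_pow, pow_card_eq_one, map_one, Units.val_one]

theorem LIN_main1 (A l d β : ℝ) (j : ℕ) (hA : 1 ≤ A) (hl : 1 ≤ l) (hβ : β < 1)
    (hb : (1 - β) * l < 1) (hd : 0 < d) (hdd : d = ((j + 1 : ℕ) : ℝ) / (A * l)) :
    (d / (d + (1 - β))) ^ (j + 1) ≤ 1 - (1 - β) * l / 2 := by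
  have hJ : (0 : ℝ) < ((j + 1 : ℕ) : ℝ) := by positivity
  obtain ⟨x, hx⟩ : ∃ x, x = (1 - β) / d := ⟨_, rfl⟩
  have hx0 : 0 ≤ x := by rw [hx]; exact div_nonneg (by linarith) hd.le
  have h1 : d / (d + (1 - β)) = (1 + x)⁻¹ := by
    rw [hx]; field_simp
  have h2 : 1 + ((j + 1 : ℕ) : ℝ) * x ≤ (1 + x) ^ (j + 1) :=
    one_add_mul_le_pow (by linarith) (j + 1)
  have h3 : ((j + 1 : ℕ) : ℝ) * x = A * ((1 - β) * l) := by
    rw [hx, hdd]
    have : A * l ≠ 0 := by positivity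
    field_simp
  obtain ⟨t, ht⟩ : ∃ t, t = (1 - β) * l := ⟨_, rfl⟩
  have ht0 : 0 < t := by rw [ht]; exact mul_pos (by linarith) (by linarith)
  rw [h1, inv_pow]
  rw [h3, ← ht] at h2
  rw [← ht] at hb ⊢
  have h4 : 1 + t ≤ (1 + x) ^ (j + 1) := by nlinarith
  calc ((1 + x) ^ (j + 1))⁻¹ ≤ (1 + t)⁻¹ := inv_anti₀ (by linarith) h4
    _ ≤ 1 - t / 2 := by
        rw [inv_le_iff_one_le_mul₀ (by linarith)]
        nlinarith

theorem LIN_cases (q : ℕ) (C : ℝ) (hZFR : ZFR_stmt) (hSIE : SIE_stmt) (hDHR : DHR_stmt) :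
    ∃ c₄ : ℝ, 0 < c₄ ∧ ∀ (Y : Type) [CommGroup Y] [Fintype Y] (l : ℝ) (b : Y → ℕ → ℝ)
      (E : (Y →* ℂˣ) → ℂ → ℂ) (N : (Y →* ℂˣ) → ℕ) (ρ : (χ : Y →* ℂˣ) → Fin (N χ) → ℂ),
      Fintype.card Y ≤ q → Sys C l b E → Lists C l b E N ρ →
      ∃ (L : ℝ) (e : Finset (Σ χ, Fin (N χ))), 1 ≤ L ∧ L ≤ 20 * C * l + 1 ∧
        (∀ p, p ∉ e → c₄ * L / l ≤ 1 - (ρ p.1 p.2).re) ∧
        ∀ (d A : ℝ) (j : ℕ) (y : Y), 0 < d → 1 ≤ A → d = ((j + 1 : ℕ) : ℝ) / (A * l) →
          Real.exp (-L) / 2 ≤ 1 - (∑ p ∈ e, (starRingEnd ℂ) ((p.1 y : ℂˣ) : ℂ) *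
            ((d : ℂ) / (1 + d - ρ p.1 p.2)) ^ (j + 1)).re := by
  classical
  obtain ⟨c₂, hc₂, hc₂1, hZ⟩ := hZFR q C
  obtain ⟨c₃, hc₃, hc₃1, hD⟩ := hDHR q C
  obtain ⟨θ, hθ⟩ : ∃ θ, θ = min (c₃ ^ 2) (Real.exp (-1)) := ⟨_, rfl⟩
  have hθ0 : 0 < θ := by rw [hθ]; exact lt_min (by positivity) (Real.exp_pos _)
  have hθ1 : θ ≤ Real.exp (-1) := by rw [hθ]; exact min_le_right _ _
  have hθ2 : θ ≤ c₃ ^ 2 := by rw [hθ]; exact min_le_left _ _
  have hlogθ : Real.log θ ≤ -1 := by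
    rw [Real.log_le_iff_le_exp hθ0]; exact hθ1
  obtain ⟨c₄, hc₄⟩ : ∃ c₄, c₄ = min (c₃ / 4) (c₂ / (1 - Real.log θ)) := ⟨_, rfl⟩
  have hc₄0 : 0 < c₄ := by
    rw [hc₄]; exact lt_min (by positivity) (div_pos hc₂ (by linarith))
  have hc₄3 : c₄ ≤ c₃ / 4 := by rw [hc₄]; exact min_le_left _ _
  have hc₄2 : c₄ ≤ c₂ / (1 - Real.log θ) := by rw [hc₄]; exact min_le_right _ _
  have hc₄2' : c₄ * (1 - Real.log θ) ≤ c₂ := by
    rwa [le_div_iff₀ (by linarith)] at hc₄2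
  refine ⟨c₄, hc₄0, ?_⟩
  intro Y _ _ l b E N ρ hcard hS hL
  have hl : 1 ≤ l := hS.l1
  have hC : 1 ≤ C := hS.C1
  have hl0 : 0 < l := by linarith
  by_cases hex : ∃ p : Σ χ, Fin (N χ), 1 - c₂ / l < (ρ p.1 p.2).re
  · obtain ⟨p₁, hp₁⟩ := hex
    obtain ⟨him, hsq, hoth⟩ := hZ Y l b E N ρ hcard hS hL p₁ hp₁
    obtain ⟨β, hβ⟩ : ∃ β, β = (ρ p₁.1 p₁.2).re := ⟨_, rfl⟩
    have hρ : ρ p₁.1 p₁.2 = (β : ℂ) := by
      apply Complex.ext
      · rw [Complex.ofReal_re, hβ]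
      · rw [Complex.ofReal_im, him]
    have hE : E p₁.1 (β : ℂ) = 0 := by
      rw [← hρ]; exact (hL p₁.1).zero p₁.2
    have hsie := hSIE Y C l b E hS p₁.1 β hE
    rw [← hβ] at hp₁
    have hβ1 : 0 < 1 - β := (Real.exp_pos _).trans_le hsie
    obtain ⟨t, ht⟩ : ∃ t, t = (1 - β) * l := ⟨_, rfl⟩
    have ht0 : 0 < t := by rw [ht]; exact mul_pos hβ1 hl0
    have ht1 : t < c₂ := by
      have : 1 - β < c₂ / l := by linarith
      rw [lt_div_iff₀ hl0] at this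
      rw [ht]; exact this
    have ht2 : Real.exp (-(20 * C * l)) ≤ t := by
      rw [ht]
      nlinarith
    have hlogt : -(20 * C * l) ≤ Real.log t := by
      rw [Real.le_log_iff_exp_le ht0]; exact ht2
    have hlogt0 : Real.log t ≤ 0 := Real.log_nonpos ht0.le (by linarith)
    refine ⟨1 - Real.log t, {p₁}, by linarith, by linarith, ?_, ?_⟩
    · intro p hp
      rw [Finset.mem_singleton] at hp
      rcases lt_or_ge t θ with h | h
      · have h1 : Real.log t ≤ -1 := (Real.log_le_log ht0 h.le).trans hlogθ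
        have h2 : Real.log t ≤ 2 * Real.log c₃ := by
          have := Real.log_le_log ht0 (h.le.trans hθ2)
          rw [Real.log_pow] at this
          exact_mod_cast this
        have htc : t < c₃ := by
          have : c₃ ^ 2 ≤ c₃ := by nlinarith
          linarith
        have h3 := hD Y l b E N ρ hcard hS hL p₁ p hp hsq him (by rw [← hβ, ← ht]; exact htc)
        rw [← hβ, ← ht, Real.log_div (by linarith) (by linarith)] at h3
        refine le_trans ?_ h3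
        rw [div_mul_eq_mul_div]
        refine div_le_div_of_nonneg_right ?_ hl0.le
        have h4 : c₄ * (1 - Real.log t) ≤ c₃ / 4 * (1 - Real.log t) :=
          mul_le_mul_of_nonneg_right hc₄3 (by linarith)
        have h5 : c₃ * ((1 - Real.log t) / 4) ≤ c₃ * (Real.log c₃ - Real.log t) :=
          mul_le_mul_of_nonneg_left (by linarith) hc₃.le
        linarith
      · have h1 := hoth p hp
        have h2 : Real.log θ ≤ Real.log t := Real.log_le_log hθ0 h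
        have h3 : c₄ * (1 - Real.log t) ≤ c₂ :=
          (mul_le_mul_of_nonneg_left (by linarith) hc₄0.le).trans hc₄2'
        have h4 : c₄ * (1 - Real.log t) / l ≤ c₂ / l := div_le_div_of_nonneg_right h3 hl0.le
        linarith
    · intro d A j y hd hA hdd
      rw [Finset.sum_singleton, hρ]
      have h1 : ‖(starRingEnd ℂ) ((p₁.1 y : ℂˣ) : ℂ) *
          ((d : ℂ) / (1 + d - (β : ℂ))) ^ (j + 1)‖ = (d / (d + (1 - β))) ^ (j + 1) := by
        have h2 : (1 + (d : ℂ) - (β : ℂ)) = ((d + (1 - β) : ℝ) : ℂ) := by push_cast; ring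
        rw [norm_mul, RCLike.norm_conj, LIN_norm, one_mul, norm_pow, norm_div, h2,
          Complex.norm_real, Complex.norm_real, Real.norm_of_nonneg hd.le,
          Real.norm_of_nonneg (by linarith)]
      have h2 := LIN_main1 A l d β j hA hl (by linarith) (by rw [← ht]; linarith) hd hdd
      have h3 := (Complex.re_le_norm ((starRingEnd ℂ) ((p₁.1 y : ℂˣ) : ℂ) *
          ((d : ℂ) / (1 + d - (β : ℂ))) ^ (j + 1)))
      rw [h1] at h3
      rw [← ht] at h2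
      have h4 : Real.exp (-(1 - Real.log t)) ≤ t := by
        have : -(1 - Real.log t) = Real.log t - 1 := by ring
        rw [this, Real.exp_sub, Real.exp_log ht0]
        exact div_le_self ht0.le (Real.one_le_exp zero_le_one)
      linarith
  · push Not at hex
    refine ⟨1, ∅, le_rfl, by nlinarith, ?_, ?_⟩
    · intro p _
      have h1 := hex p
      have h2 : c₄ * 1 ≤ c₂ := (mul_le_mul_of_nonneg_left (by linarith) hc₄0.le).trans hc₄2'
      have h4 : c₄ * 1 / l ≤ c₂ / l := div_le_div_of_nonneg_right h2 hl0.le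
      linarith
    · intro d A j y _ _ _
      rw [Finset.sum_empty, Complex.zero_re, sub_zero]
      have : Real.exp (-1) ≤ 1 := Real.exp_le_one_iff.mpr (by norm_num)
      linarith

/-! ## Numerical lemmas -/

theorem LIN_third (m : ℕ) : ((1 : ℝ) / 3) ^ m ≤ Real.exp (-(m : ℝ)) := by
  have h1 : (1 : ℝ) / 3 ≤ Real.exp (-1) := by
    rw [Real.exp_neg, one_div]
    exact inv_anti₀ (Real.exp_pos 1) (by linarith [Real.exp_one_lt_d9])
  have h2 : Real.exp (-(m : ℝ)) = Real.exp (-1) ^ m := by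
    rw [← Real.exp_nat_mul]
    congr 1
    ring
  rw [h2]
  exact pow_le_pow_left₀ (by norm_num) h1 m

theorem LIN_n1 (m : ℕ) (r z : ℝ) (hr0 : 0 ≤ r) (hr : r ≤ 1 / 6) (hz : z ≤ m + 3) :
    z * r ^ m ≤ 3 * Real.exp (-(m : ℝ)) := by
  have h1 : ((m : ℝ) + 3) ≤ 3 * 2 ^ m := by
    have : (m : ℝ) + 1 ≤ 2 ^ m := by exact_mod_cast Nat.lt_two_pow_self
    nlinarith [one_le_pow₀ (M₀ := ℝ) (a := 2) (by norm_num) (n := m)]
  have h2 : r ^ m ≤ (1 / 6) ^ m := pow_le_pow_left₀ hr0 hr m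
  have h3 : 0 ≤ r ^ m := by positivity
  calc z * r ^ m ≤ (3 * 2 ^ m) * r ^ m := mul_le_mul_of_nonneg_right (hz.trans h1) h3
    _ ≤ (3 * 2 ^ m) * (1 / 6) ^ m := mul_le_mul_of_nonneg_left h2 (by positivity)
    _ = 3 * (1 / 3) ^ m := by
        rw [mul_assoc, ← mul_pow]; norm_num
    _ ≤ 3 * Real.exp (-(m : ℝ)) := mul_le_mul_of_nonneg_left (LIN_third m) (by norm_num)

theorem LIN_n2 (j : ℕ) : ((j : ℝ) + 1) ^ 2 * (1 / 5) ^ j ≤ 16 * Real.exp (-(j : ℝ)) := by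
  have h1 : 1 + (j : ℝ) * (1 / 4) ≤ (1 + 1 / 4) ^ j :=
    one_add_mul_le_pow (by norm_num) j
  have h2 : ((j : ℝ) + 1) ^ 2 ≤ 16 * (25 / 16) ^ j := by
    have h3 : (25 / 16 : ℝ) ^ j = ((1 + 1 / 4) ^ j) ^ 2 := by
      rw [← pow_mul, mul_comm j 2, pow_mul]
      norm_num
    have h4 : ((j : ℝ) + 1) / 4 ≤ (1 + 1 / 4) ^ j := by linarith
    have h5 : (((j : ℝ) + 1) / 4) ^ 2 ≤ ((1 + 1 / 4) ^ j) ^ 2 := pow_le_pow_left₀ (by positivity) h4 2
    rw [h3]
    nlinarith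
  calc ((j : ℝ) + 1) ^ 2 * (1 / 5) ^ j ≤ (16 * (25 / 16) ^ j) * (1 / 5) ^ j :=
        mul_le_mul_of_nonneg_right h2 (by positivity)
    _ = 16 * (5 / 16) ^ j := by
        rw [mul_assoc, ← mul_pow]; norm_num
    _ ≤ 16 * (1 / 3) ^ j := mul_le_mul_of_nonneg_left
        (pow_le_pow_left₀ (by norm_num) (by norm_num) j) (by norm_num)
    _ ≤ 16 * Real.exp (-(j : ℝ)) := mul_le_mul_of_nonneg_left (LIN_third j) (by norm_num)

theorem LIN_n3 (j : ℕ) : ((11 : ℝ)⁻¹) ^ j ≤ Real.exp (-(j : ℝ)) :=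
  (pow_le_pow_left₀ (by norm_num) (by norm_num) j).trans (LIN_third j)

theorem LIN_fin (q C A l M : ℝ) (hq : 1 ≤ q) (hC : 1 ≤ C) (hl : 1 ≤ l)
    (hA1 : 120 * (21 * C + 1) ≤ A) (hA2 : 23040001 * (q * C) ≤ A)
    (h : Real.exp (-(21 * C * l)) / 8 ≤ q * (M * (C * (100 * (A * l)) * Real.exp (-(A * l / 60))))) :
    Real.exp l < M := by
  by_contra hM
  push Not at hM
  have hA0 : 0 < A := by nlinarith
  obtain ⟨u, hu⟩ : ∃ u, u = A * l := ⟨_, rfl⟩
  have hu0 : 0 < u := by rw [hu]; positivity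
  rw [← hu] at h
  have h1 : Real.exp (-(21 * C * l)) / 8 ≤
      q * (Real.exp l * (C * (100 * u) * Real.exp (-(u / 60)))) := by
    refine h.trans (mul_le_mul_of_nonneg_left (mul_le_mul_of_nonneg_right hM ?_) (by linarith))
    positivity
  have h2 : Real.exp (u / 120) ≤ 800 * (q * C) * u := by
    have h3 : Real.exp (u / 120) ≤ Real.exp (u / 60 - 21 * C * l - l) := by
      apply Real.exp_le_exp.mpr
      have : 120 * (21 * C + 1) * l ≤ A * l := mul_le_mul_of_nonneg_right hA1 (by linarith)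
      rw [← hu] at this
      linarith
    refine h3.trans ?_
    have h4 : Real.exp (u / 60 - 21 * C * l - l) =
        Real.exp (-(21 * C * l)) * (Real.exp (u / 60) * Real.exp (-l)) := by
      rw [← Real.exp_add, ← Real.exp_add]
      congr 1
      ring
    have h5 : Real.exp (u / 60) * Real.exp (-(u / 60)) = 1 := by
      rw [← Real.exp_add, add_neg_cancel, Real.exp_zero]
    have h6 : Real.exp l * Real.exp (-l) = 1 := by
      rw [← Real.exp_add, add_neg_cancel, Real.exp_zero]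
    rw [h4]
    calc Real.exp (-(21 * C * l)) * (Real.exp (u / 60) * Real.exp (-l))
        ≤ (8 * (q * (Real.exp l * (C * (100 * u) * Real.exp (-(u / 60)))))) *
            (Real.exp (u / 60) * Real.exp (-l)) := by
          refine mul_le_mul_of_nonneg_right (by linarith) (by positivity)
      _ = 800 * (q * C) * u * ((Real.exp (u / 60) * Real.exp (-(u / 60))) *
            (Real.exp l * Real.exp (-l))) := by ring
      _ = 800 * (q * C) * u := by rw [h5, h6]; ring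
  have h7 : 1 + u / 120 + (u / 120) ^ 2 / 2 ≤ Real.exp (u / 120) :=
    Real.quadratic_le_exp_of_nonneg (by positivity)
  have h8 : 23040001 * (q * C) ≤ u := by
    rw [hu]
    nlinarith
  have h9 : 0 < q * C := by positivity
  nlinarith

/-! ## The theorem -/

theorem LIN_num (q C K₁ K₂ a l L Sg X n : ℝ) (m : ℕ) (hq : 1 ≤ q) (hC : 1 ≤ C) (hK₁ : 1 ≤ K₁)
    (hK₂ : 1 ≤ K₂) (ha : 10 + 4 * (19 * K₁ + q * C * K₂) ≤ a) (hL : 1 ≤ L) (hm : a * L ≤ m)
    (hL2 : L ≤ 20 * C * l + 1) (hl : 1 ≤ l) (hn0 : 0 ≤ n) (hn : n ≤ q)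
    (h1 : Real.exp (-L) / 2 - K₁ * (3 * Real.exp (-(m : ℝ))) - K₁ * (16 * Real.exp (-(m : ℝ))) ≤
      n * Sg)
    (h2 : Sg ≤ X + C * (K₂ * Real.exp (-(m : ℝ)))) :
    Real.exp (-(21 * C * l)) / 4 ≤ n * X := by
  have hb : 0 ≤ 19 * K₁ + q * C * K₂ := by positivity
  have ha10 : 10 ≤ a := by linarith
  have h3 : Real.exp (-(m : ℝ)) ≤ Real.exp (-L) * a⁻¹ := by
    have h4 : Real.exp (-(m : ℝ)) ≤ Real.exp (-L) * Real.exp (-(a - 1)) := by
      rw [← Real.exp_add]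
      apply Real.exp_le_exp.mpr
      have : (a - 1) * 1 ≤ (a - 1) * L := mul_le_mul_of_nonneg_left hL (by linarith)
      nlinarith
    refine h4.trans (mul_le_mul_of_nonneg_left ?_ (Real.exp_pos _).le)
    rw [Real.exp_neg]
    refine inv_anti₀ (by linarith) ?_
    have := Real.add_one_le_exp (a - 1)
    linarith
  have h5 : (19 * K₁ + q * C * K₂) * Real.exp (-(m : ℝ)) ≤ Real.exp (-L) / 4 := by
    have h6 : (19 * K₁ + q * C * K₂) * a⁻¹ ≤ 1 / 4 := by
      rw [← div_eq_mul_inv, div_le_iff₀ (by linarith)]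
      linarith
    calc (19 * K₁ + q * C * K₂) * Real.exp (-(m : ℝ))
        ≤ (19 * K₁ + q * C * K₂) * (Real.exp (-L) * a⁻¹) := mul_le_mul_of_nonneg_left h3 hb
      _ = ((19 * K₁ + q * C * K₂) * a⁻¹) * Real.exp (-L) := by ring
      _ ≤ 1 / 4 * Real.exp (-L) := mul_le_mul_of_nonneg_right h6 (Real.exp_pos _).le
      _ = Real.exp (-L) / 4 := by ring
  have h7 : n * Sg ≤ n * X + q * C * K₂ * Real.exp (-(m : ℝ)) := by
    have h8 : n * Sg ≤ n * (X + C * (K₂ * Real.exp (-(m : ℝ)))) := mul_le_mul_of_nonneg_left h2 hn0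
    have h9 : n * (C * (K₂ * Real.exp (-(m : ℝ)))) ≤ q * (C * (K₂ * Real.exp (-(m : ℝ)))) :=
      mul_le_mul_of_nonneg_right hn (by positivity)
    nlinarith
  have h10 : Real.exp (-(21 * C * l)) ≤ Real.exp (-L) := by
    apply Real.exp_le_exp.mpr
    nlinarith
  nlinarith

theorem LIN (hEFX : EFX_stmt) (hZFR : ZFR_stmt) (hSIE : SIE_stmt) (hDHR : DHR_stmt)
    (hMB1 : MB1_stmt) (hTHB : THB_stmt) (hNPR : NPR_stmt) : LIN_stmt := by
  classical
  intro q C
  by_cases hC : 1 ≤ C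
  swap
  · exact ⟨1, le_rfl, fun Y _ _ l b E _ hS => absurd hS.C1 hC⟩
  by_cases hq : 1 ≤ q
  swap
  · refine ⟨1, le_rfl, fun Y _ _ l b E hcard _ => ?_⟩
    exact absurd (le_trans Fintype.card_pos hcard) hq
  have hqr : (1 : ℝ) ≤ (q : ℝ) := by exact_mod_cast hq
  obtain ⟨c₄, hc₄, hZ⟩ := LIN_cases q C hZFR hSIE hDHR
  obtain ⟨K₁, hK₁, hMB⟩ := hMB1 q C
  obtain ⟨K₂, hK₂, hTH⟩ := hTHB
  obtain ⟨K₃, hK₃, hNP⟩ := hNPR
  obtain ⟨a, ha⟩ : ∃ a : ℝ, a = 10 + 4 * (19 * K₁ + q * C * K₂) := ⟨_, rfl⟩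
  obtain ⟨A', hA'⟩ : ∃ A' : ℝ, A' = 42 * C + 10 / c₄ + 180 * (21 * C + 8 * q * C * K₃) +
    120 * (21 * C + 1) + 23040001 * (q * C) := ⟨_, rfl⟩
  obtain ⟨A, hA⟩ : ∃ A : ℝ, A = a * A' := ⟨_, rfl⟩
  have ha10 : 10 ≤ a := by rw [ha]; nlinarith [mul_pos (mul_pos (by linarith : (0 : ℝ) < q)
    (by linarith : (0 : ℝ) < C)) (by linarith : (0 : ℝ) < K₂)]
  have hp1 : 0 < 10 / c₄ := by positivity
  have hp2 : 0 < 8 * q * C * K₃ := by positivity
  have hp3 : 0 < (q : ℝ) * C := by positivity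
  have hA'1 : 42 * C ≤ A' := by rw [hA']; nlinarith
  have hA'2 : 10 / c₄ ≤ A' := by rw [hA']; nlinarith
  have hA'3 : 180 * (21 * C + 8 * q * C * K₃) ≤ A' := by rw [hA']; nlinarith
  have hA'4 : 120 * (21 * C + 1) ≤ A' := by rw [hA']; nlinarith
  have hA'5 : 23040001 * (q * C) ≤ A' := by rw [hA']; nlinarith
  have hA'0 : 0 < A' := by linarith
  have hAA' : A' ≤ A := by rw [hA]; nlinarith
  have hA0 : 0 < A := by linarith
  have hA1 : 1 ≤ A := by linarith
  refine ⟨100 * A, by linarith, ?_⟩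
  intro Y _ _ l b E hcard hS y
  have hl : 1 ≤ l := hS.l1
  have hl0 : 0 < l := by linarith
  choose N ρ hL using fun χ : Y →* ℂˣ => hEFX Y C l b E hS χ 0 40 (by norm_num) (by norm_num)
  obtain ⟨L, e, hL1, hL2, he, hmain⟩ := hZ Y l b E N ρ hcard hS hL
  -- the parameters
  obtain ⟨m, hm⟩ : ∃ m : ℕ, m = ⌈a * L⌉₊ := ⟨_, rfl⟩
  have haL : 0 < a * L := by positivity
  have hm1 : a * L ≤ m := by rw [hm]; exact Nat.le_ceil _
  have hm2 : (m : ℝ) ≤ a * L + 1 := by rw [hm]; exact (Nat.ceil_lt_add_one haL.le).le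
  obtain ⟨j, hj⟩ : ∃ j : ℕ, j = m + 1 := ⟨_, rfl⟩
  have hj1 : 1 ≤ j := by omega
  have hjm : j - 1 = m := by omega
  obtain ⟨d, hd⟩ : ∃ d : ℝ, d = ((j + 1 : ℕ) : ℝ) / (A * l) := ⟨_, rfl⟩
  have hAl : 0 < A * l := by positivity
  have hJ : ((j + 1 : ℕ) : ℝ) = m + 2 := by rw [hj]; push_cast; ring
  have hJ2 : ((j + 1 : ℕ) : ℝ) ≤ 2 * (a * L) := by rw [hJ]; nlinarith
  have hd0 : 0 < d := by rw [hd]; positivity
  have hdl : d * l ≤ ((j + 1 : ℕ) : ℝ) := by
    have : d * l = ((j + 1 : ℕ) : ℝ) / A := by rw [hd]; field_simp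
    rw [this]
    exact div_le_self (by positivity) hA1
  have hd1 : d ≤ 1 := by
    rw [hd, div_le_one hAl]
    have h1 : L ≤ 21 * C * l := by nlinarith
    have h2 : 2 * (a * L) ≤ a * (42 * C * l) := by nlinarith
    have h3 : a * (42 * C * l) ≤ a * (A' * l) :=
      mul_le_mul_of_nonneg_left (mul_le_mul_of_nonneg_right hA'1 hl0.le) (by linarith)
    rw [hA]
    linarith
  obtain ⟨κ, hκ⟩ : ∃ κ, κ = c₄ * L / l := ⟨_, rfl⟩
  have hκ0 : 0 < κ := by rw [hκ]; positivity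
  have hκd : 5 * d ≤ κ := by
    rw [hκ, hd, ← mul_div_assoc, div_le_div_iff₀ hAl hl0]
    have h1 : 10 ≤ c₄ * A' := by
      rw [div_le_iff₀ hc₄] at hA'2
      linarith
    have h2 : 5 * ((j + 1 : ℕ) : ℝ) ≤ 10 * (a * L) := by linarith
    have h3 : 10 * (a * L) ≤ (c₄ * A') * (a * L) := mul_le_mul_of_nonneg_right h1 haL.le
    calc 5 * ((j + 1 : ℕ) : ℝ) * l ≤ (c₄ * A') * (a * L) * l :=
          mul_le_mul_of_nonneg_right (h2.trans h3) hl0.le
      _ = c₄ * L * (A * l) := by rw [hA]; ring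
  rw [← hκ] at he
  have hMB' := hMB Y l b E N ρ hcard hS hL e κ d j y hκ0.le hd0 hd1 hj1 he
  have hmain' := hmain d A j y hd0 hA1 hd
  -- the coefficients
  have hc0 : ∀ k, 0 ≤ b y k := fun k => hS.nonneg y k
  have hcb : ∀ k, b y k ≤ C * VM k := fun k =>
    (Finset.single_le_sum (f := fun y => b y k) (fun y _ => hS.nonneg y k)
      (Finset.mem_univ y)).trans (hS.bd k)
  have hspl := LIN_split C K₂ d A l j (b y) hd0 hd1 (by linarith) hA0 hl0 hd hc0 hcb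
    (hTH d j hd0 hd1 hj1)
  have hn1 : (Fintype.card Y : ℝ) ≤ q := by exact_mod_cast hcard
  have hn0 : (0 : ℝ) ≤ (Fintype.card Y : ℝ) := Nat.cast_nonneg _
  have hr : d / (d + κ) ≤ 1 / 6 := by
    rw [div_le_div_iff₀ (by linarith) (by norm_num)]
    linarith
  have hT1 : K₁ * (1 + d * l) * (d / (d + κ)) ^ (j - 1) ≤ K₁ * (3 * Real.exp (-(m : ℝ))) := by
    rw [hjm, mul_assoc]
    refine mul_le_mul_of_nonneg_left ?_ (by linarith)
    exact LIN_n1 m (d / (d + κ)) (1 + d * l) (by positivity) hr (by rw [hJ] at hdl; linarith)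
  have hej : Real.exp (-(j : ℝ)) ≤ Real.exp (-(m : ℝ)) := by
    apply Real.exp_le_exp.mpr
    rw [hj]; push_cast; linarith
  have hT2 : K₁ * l * (j + 1) * d * (d / 5) ^ j ≤ K₁ * (16 * Real.exp (-(m : ℝ))) := by
    have h1 : (d / 5) ^ j ≤ (1 / 5) ^ j :=
      pow_le_pow_left₀ (by positivity) (by linarith) j
    have h2 : K₁ * l * (j + 1) * d * (d / 5) ^ j = K₁ * ((d * l) * (j + 1) * (d / 5) ^ j) := by ring
    rw [h2]
    refine mul_le_mul_of_nonneg_left ?_ (by linarith)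
    calc (d * l) * (j + 1) * (d / 5) ^ j ≤ ((j : ℝ) + 1) ^ 2 * (1 / 5) ^ j := by
          refine mul_le_mul ?_ h1 (by positivity) (by positivity)
          rw [pow_two]
          refine mul_le_mul_of_nonneg_right ?_ (by positivity)
          push_cast at hdl
          exact hdl
      _ ≤ 16 * Real.exp (-(j : ℝ)) := LIN_n2 j
      _ ≤ 16 * Real.exp (-(m : ℝ)) := mul_le_mul_of_nonneg_left hej (by norm_num)
  have hspl' : Sy b y d j ≤ ∑ k ∈ LIN_S (A * l / 60) (100 * (A * l)), b y k / k +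
      C * (K₂ * Real.exp (-(m : ℝ))) := by
    refine hspl.trans (add_le_add le_rfl (mul_le_mul_of_nonneg_left
      (mul_le_mul_of_nonneg_left ((LIN_n3 j).trans hej) (by linarith)) (by linarith)))
  have hX := LIN_num q C K₁ K₂ a l L (Sy b y d j)
    (∑ k ∈ LIN_S (A * l / 60) (100 * (A * l)), b y k / k) (Fintype.card Y) m hqr hC hK₁ hK₂
    ha.ge hL1 hm1 hL2 hl hn0 hn1 (by
      have := Real.exp_pos (-(m : ℝ))
      linarith) hspl'
  have hpr := LIN_prime C K₃ (A * l / 60) (100 * (A * l)) (b y) (by linarith) (by positivity)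
    (by nlinarith) hcb hNP
  obtain ⟨M, hM⟩ : ∃ M : ℝ, M = ({p : ℕ | p.Prime ∧ (p : ℝ) ≤ Real.exp (100 * (A * l)) ∧
    b y p ≠ 0}.ncard : ℝ) := ⟨_, rfl⟩
  rw [← hM] at hpr
  have hM0 : 0 ≤ M := by rw [hM]; exact Nat.cast_nonneg _
  have hset : {p : ℕ | p.Prime ∧ (p : ℝ) ≤ Real.exp (100 * A * l) ∧ b y p ≠ 0} =
      {p : ℕ | p.Prime ∧ (p : ℝ) ≤ Real.exp (100 * (A * l)) ∧ b y p ≠ 0} := by
    rw [mul_assoc]
  rw [hset, ← hM]
  refine LIN_fin q C A l M hqr hC hl (hA'4.trans hAA') (hA'5.trans hAA') ?_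
  have h1 : (Fintype.card Y : ℝ) * ∑ k ∈ LIN_S (A * l / 60) (100 * (A * l)), b y k / k ≤
      q * (C * (K₃ * Real.exp (-(A * l / 60 / 3))) +
        M * (C * (100 * (A * l)) * Real.exp (-(A * l / 60)))) := by
    refine mul_le_mul hn1 hpr ?_ (by linarith)
    exact Finset.sum_nonneg (fun k _ => div_nonneg (hc0 k) (Nat.cast_nonneg k))
  have h2 : q * (C * (K₃ * Real.exp (-(A * l / 60 / 3)))) ≤ Real.exp (-(21 * C * l)) / 8 := by
    have h3 : 8 * q * C * K₃ ≤ Real.exp (A * l / 60 / 3 - 21 * C * l) := by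
      have h4 : 180 * (21 * C + 8 * q * C * K₃) * l ≤ A * l :=
        mul_le_mul_of_nonneg_right (hA'3.trans hAA') hl0.le
      have h5 : 8 * q * C * K₃ ≤ A * l / 60 / 3 - 21 * C * l := by nlinarith
      have := Real.add_one_le_exp (A * l / 60 / 3 - 21 * C * l)
      linarith
    have h6 : Real.exp (-(21 * C * l)) = Real.exp (A * l / 60 / 3 - 21 * C * l) *
        Real.exp (-(A * l / 60 / 3)) := by
      rw [← Real.exp_add]
      congr 1
      ring
    rw [h6]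
    have h7 := mul_le_mul_of_nonneg_right h3 (Real.exp_pos (-(A * l / 60 / 3))).le
    linarith
  linarith

end Pool.Agent.CHE
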